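import Mathlib

/-!
# MP_7b3742_al : groups generated by automata of affine tree automorphisms

The boundary of the rooted `d`-ary tree is the set `ℕ → ZMod d` of infinite words (letters are
indexed from `0`).  Automorphisms of the tree are identified with the induced permutations of
the boundary.  For every `d ≥ 2` we give a finite-state affine automorphism `g` such that `G_g`
is infinite and has no finite-index normal subgroup isomorphic to a restricted wreath product
`ℤ_d^k ≀ ℤ^l`.
-/

set_option autoImplicit false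

namespace Pool.Agent.Results.MP_7b3742_al.Interleaved

open scoped BigOperators

/-- Infinite words over the alphabet `ZMod d`. -/
abbrev Word (d : ℕ) := ℕ → ZMod d

/-- The word `x v`. -/
def cons {d : ℕ} (x : ZMod d) (v : Word d) : Word d
  | 0 => x
  | (n + 1) => v n

/-- `π_{A,b}(x) = b + x A`, where only the entries `A i j` with `i ≤ j` are used. -/
def affine {d : ℕ} (A : ℕ → ℕ → ZMod d) (b : Word d) (x : Word d) : Word d :=
  fun j => b j + ∑ i ∈ Finset.range (j + 1), x i * A i j

/-- Affine automorphisms of the `d`-ary tree, as permutations of the boundary. -/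
def IsAffine {d : ℕ} (g : Equiv.Perm (Word d)) : Prop :=
  ∃ (A : ℕ → ℕ → ZMod d) (b : Word d), (∀ i j, j < i → A i j = 0) ∧ (∀ i, IsUnit (A i i)) ∧
    ∀ x, g x = affine A b x

/-- `h` is the state (section) `g|_x`. -/
def IsSection {d : ℕ} (g : Equiv.Perm (Word d)) (x : ZMod d) (h : Equiv.Perm (Word d)) : Prop :=
  ∀ (v : Word d) (j : ℕ), h v j = g (cons x v) (j + 1)

/-- The states `g|_v` of `g`, `v` a finite word. -/
inductive IsState {d : ℕ} (g : Equiv.Perm (Word d)) : Equiv.Perm (Word d) → Prop
  | self : IsState g g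
  | step {h h' : Equiv.Perm (Word d)} (x : ZMod d) :
      IsState g h → IsSection h x h' → IsState g h'

/-- The set of states of `g`. -/
def states {d : ℕ} (g : Equiv.Perm (Word d)) : Set (Equiv.Perm (Word d)) := {h | IsState g h}

/-- The group generated by the automaton of `g`. -/
def autGroup {d : ℕ} (g : Equiv.Perm (Word d)) : Subgroup (Equiv.Perm (Word d)) :=
  Subgroup.closure (states g)

/-- The base group `⊕_{ℤ^l} ℤ_d^k` of the restricted wreath product. -/
abbrev Base (d k l : ℕ) := (Fin l → ℤ) →₀ (Fin k → ZMod d)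

/-- The shift `(v · f)(u) = f (u - v)` of the base group. -/
def shift {d k l : ℕ} (v : Fin l → ℤ) (f : Base d k l) : Base d k l :=
  f.equivMapDomain (Equiv.addRight v)

/-- The restricted wreath product `ℤ_d^k ≀ ℤ^l`, as the set of pairs `(f, v)`. -/
structure Wr (d k l : ℕ) where
  base : Base d k l
  top : Fin l → ℤ

/-- The multiplication `(f, v) (g, w) = (f + v · g, v + w)` of the wreath product. -/
noncomputable instance (d k l : ℕ) : Mul (Wr d k l) :=
  ⟨fun x y => ⟨x.base + shift x.top y.base, x.top + y.top⟩⟩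

theorem shift_apply {d k l : ℕ} (v : Fin l → ℤ) (f : Base d k l) (u : Fin l → ℤ) :
    shift v f u = f (u - v) := by
  simp [shift, sub_eq_add_neg]

theorem shift_zero {d k l : ℕ} (f : Base d k l) : shift 0 f = f := by
  apply Finsupp.ext
  intro u
  rw [shift_apply, sub_zero]

theorem shift_shift {d k l : ℕ} (v w : Fin l → ℤ) (f : Base d k l) :
    shift v (shift w f) = shift (v + w) f := by
  apply Finsupp.ext
  intro u
  rw [shift_apply, shift_apply, shift_apply]
  congr 1
  abel

theorem shift_add {d k l : ℕ} (v : Fin l → ℤ) (f g : Base d k l) :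
    shift v (f + g) = shift v f + shift v g := by
  apply Finsupp.ext
  intro u
  rw [Finsupp.add_apply, shift_apply, shift_apply, shift_apply, Finsupp.add_apply]

theorem Wr.ext' {d k l : ℕ} {x y : Wr d k l} (h1 : x.base = y.base) (h2 : x.top = y.top) :
    x = y := by
  cases x
  cases y
  simp only at h1 h2
  rw [h1, h2]

instance (d k l : ℕ) : One (Wr d k l) := ⟨⟨0, 0⟩⟩

theorem mul_base {d k l : ℕ} (x y : Wr d k l) :
    (x * y).base = x.base + shift x.top y.base := rfl

theorem mul_top {d k l : ℕ} (x y : Wr d k l) : (x * y).top = x.top + y.top := rfl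

theorem one_base {d k l : ℕ} : (1 : Wr d k l).base = 0 := rfl

theorem one_top {d k l : ℕ} : (1 : Wr d k l).top = 0 := rfl

noncomputable instance (d k l : ℕ) : Monoid (Wr d k l) where
  mul_assoc x y z := by
    apply Wr.ext'
    · rw [mul_base, mul_base, mul_base, mul_base, mul_top, shift_add, shift_shift, add_assoc]
    · rw [mul_top, mul_top, mul_top, mul_top, add_assoc]
  one_mul x := by
    apply Wr.ext'
    · rw [mul_base, one_base, one_top, shift_zero, zero_add]
    · rw [mul_top, one_top, zero_add]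
  mul_one x := by
    apply Wr.ext'
    · rw [mul_base, one_base]
      have : shift x.top (0 : Base d k l) = 0 := by
        apply Finsupp.ext
        intro u
        rw [shift_apply]
        rfl
      rw [this, add_zero]
    · rw [mul_top, one_top, add_zero]

theorem pow_top {d k l : ℕ} (x : Wr d k l) (n : ℕ) : (x ^ n).top = n • x.top := by
  induction n with
  | zero => rw [pow_zero, zero_smul, one_top]
  | succ n ih => rw [pow_succ, mul_top, ih, succ_nsmul]

theorem pow_base {d k l : ℕ} (x : Wr d k l) (hx : x.top = 0) (n : ℕ) :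
    (x ^ n).base = n • x.base := by
  induction n with
  | zero => rw [pow_zero, zero_smul, one_base]
  | succ n ih =>
    rw [pow_succ, mul_base, ih, pow_top, hx, smul_zero, shift_zero, succ_nsmul]

/-! ### The example -/

section F

variable {d : ℕ}

/-- the maps -/
def Ff (p : ℕ) (c : ZMod d) (x : Word d) : Word d
  | 0 => x 0 + if p = 0 then c else 0
  | 1 => x 1 + if p = 1 then c else 0
  | (n + 2) => x (n + 2) + if n % 2 = p then x n else 0

/-- inverse maps -/
def Gf (p : ℕ) (c : ZMod d) (x : Word d) : Word d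
  | 0 => x 0 - if p = 0 then c else 0
  | 1 => x 1 - if p = 1 then c else 0
  | (n + 2) => x (n + 2) - if n % 2 = p then Gf p c x n else 0

theorem Gf_Ff (p : ℕ) (c : ZMod d) (x : Word d) : ∀ n, Gf p c (Ff p c x) n = x n
  | 0 => by simp [Gf, Ff]
  | 1 => by simp [Gf, Ff]
  | (n + 2) => by
    rw [Gf, Gf_Ff p c x n, Ff]
    simp

theorem Ff_Gf (p : ℕ) (c : ZMod d) (x : Word d) : ∀ n, Ff p c (Gf p c x) n = x n
  | 0 => by simp [Gf, Ff]
  | 1 => by simp [Gf, Ff]
  | (n + 2) => by
    rw [Ff, Gf]
    simp

/-- the automorphisms `F p c` -/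
def F (p : ℕ) (c : ZMod d) : Equiv.Perm (Word d) where
  toFun := Ff p c
  invFun := Gf p c
  left_inv x := funext (Gf_Ff p c x)
  right_inv x := funext (Ff_Gf p c x)

theorem F_zero' (p : ℕ) (c : ZMod d) (x : Word d) : F p c x 0 = x 0 + if p = 0 then c else 0 := rfl
theorem F_one' (p : ℕ) (c : ZMod d) (x : Word d) : F p c x 1 = x 1 + if p = 1 then c else 0 := rfl
theorem F_add_two (p : ℕ) (c : ZMod d) (x : Word d) (n : ℕ) :
    F p c x (n + 2) = x (n + 2) + if n % 2 = p then x n else 0 := rfl

theorem section_zero (c x : ZMod d) : IsSection (F 0 c) x (F 1 x) := by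
  intro v j
  rcases j with _ | _ | n
  · simp [F_zero', F_one', cons]
  · change F 1 x v 1 = F 0 c (cons x v) (0 + 2)
    rw [F_add_two, F_one']
    simp [cons]
  · change F 1 x v (n + 2) = F 0 c (cons x v) ((n + 1) + 2)
    rw [F_add_two, F_add_two]
    have h : ((n + 1) % 2 = 0) ↔ (n % 2 = 1) := by omega
    simp only [h]
    rfl

theorem section_one (c x : ZMod d) : IsSection (F 1 c) x (F 0 c) := by
  intro v j
  rcases j with _ | _ | n
  · simp [F_zero', F_one', cons]
  · change F 0 c v 1 = F 1 c (cons x v) (0 + 2)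
    rw [F_add_two, F_one']
    simp [cons]
  · change F 0 c v (n + 2) = F 1 c (cons x v) ((n + 1) + 2)
    rw [F_add_two, F_add_two]
    have h : ((n + 1) % 2 = 1) ↔ (n % 2 = 0) := by omega
    simp only [h]
    rfl

theorem section_unique {g h h' : Equiv.Perm (Word d)} {x : ZMod d} (h1 : IsSection g x h)
    (h2 : IsSection g x h') : h = h' := by
  ext v j
  rw [h1, h2]

theorem states_eq : states (F (d := d) 0 0) = {h | ∃ c : ZMod d, h = F 0 c ∨ h = F 1 c} := by
  ext h
  constructor
  · intro hh
    induction hh with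
    | self => exact ⟨0, Or.inl rfl⟩
    | step x _ hs ih =>
      obtain ⟨c, rfl | rfl⟩ := ih
      · exact ⟨x, Or.inr (section_unique hs (section_zero c x))⟩
      · exact ⟨c, Or.inl (section_unique hs (section_one c x))⟩
  · rintro ⟨c, rfl | rfl⟩
    · exact IsState.step 0 (IsState.step c IsState.self (section_zero 0 c)) (section_one c 0)
    · exact IsState.step c IsState.self (section_zero 0 c)

theorem states_finite [NeZero d] : (states (F (d := d) 0 0)).Finite := by
  rw [states_eq]
  have : {h | ∃ c : ZMod d, h = F 0 c ∨ h = F 1 c} =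
      Set.range (fun c : ZMod d => F 0 c) ∪ Set.range (fun c : ZMod d => F 1 c) := by
    ext h
    constructor
    · rintro ⟨c, h1 | h1⟩
      · exact Or.inl ⟨c, h1.symm⟩
      · exact Or.inr ⟨c, h1.symm⟩
    · rintro (⟨c, h1⟩ | ⟨c, h1⟩)
      · exact ⟨c, Or.inl h1.symm⟩
      · exact ⟨c, Or.inr h1.symm⟩
  rw [this]
  exact (Set.finite_range _).union (Set.finite_range _)

theorem isAffine : IsAffine (F (d := d) 0 0) := by
  refine ⟨fun i j => if i = j then 1 else if i + 2 = j ∧ i % 2 = 0 then 1 else 0, 0, ?_, ?_, ?_⟩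
  · intro i j hij
    change (if i = j then (1 : ZMod d) else if i + 2 = j ∧ i % 2 = 0 then 1 else 0) = 0
    rw [if_neg (by omega), if_neg (by omega)]
  · intro i
    simp
  · intro x
    funext j
    rcases j with _ | _ | n
    · simp [affine, F_zero']
    · simp [affine, F_one', Finset.sum_range_succ]
    · rw [F_add_two]
      simp only [affine, Pi.zero_apply, zero_add]
      rw [Finset.sum_range_succ, Finset.sum_range_succ, Finset.sum_range_succ]
      rw [Finset.sum_eq_zero]
      · rw [if_pos (show n + 2 = n + 1 + 1 from rfl)]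
        rw [if_neg (show ¬ (n = n + 1 + 1) by omega), if_neg (show ¬ (n + 1 = n + 1 + 1) by omega)]
        rw [if_neg (show ¬ (n + 1 + 2 = n + 1 + 1 ∧ (n + 1) % 2 = 0) by omega)]
        by_cases h : n % 2 = 0
        · rw [if_pos h, if_pos ⟨rfl, h⟩]
          ring
        · rw [if_neg h, if_neg (fun hh => h hh.2)]
          ring
      · intro i hi
        rw [Finset.mem_range] at hi
        rw [if_neg (by omega), if_neg (by omega), mul_zero]

/-! ### Structure of the group -/

/-- linearity of `F p 0` -/
theorem F_add (p : ℕ) (x w : Word d) : F p 0 (x + w) = F p 0 x + F p 0 w := by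
  funext n
  rcases n with _ | _ | n
  · simp [F_zero']
  · simp [F_one']
  · simp only [F_add_two, Pi.add_apply]
    split_ifs
    · ring
    · ring

/-- translations -/
def T (w : Word d) : Equiv.Perm (Word d) := Equiv.addRight w

theorem T_apply (w x : Word d) : T w x = x + w := rfl

/-- words supported on odd positions -/
def OddSupp (w : Word d) : Prop := ∀ n, n % 2 = 0 → w n = 0

theorem F_zero_odd {w : Word d} (hw : OddSupp w) : F 0 0 w = w := by
  funext n
  rcases n with _ | _ | n
  · simp [F_zero']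
  · simp [F_one']
  · rw [F_add_two]
    split_ifs with h
    · rw [hw n h, add_zero]
    · rw [add_zero]

theorem F_one_odd {w : Word d} (hw : OddSupp w) : OddSupp (F 1 0 w) := by
  intro n hn
  rcases n with _ | _ | n
  · simp [F_zero', hw 0 rfl]
  · omega
  · rw [F_add_two, hw (n + 2) hn, if_neg (by omega), add_zero]

/-- `E₁^n e₁` -/
def W : ℕ → Word d
  | 0 => Pi.single 1 1
  | (n + 1) => F 1 0 (W n)

theorem W_odd : ∀ n, OddSupp (W (d := d) n)
  | 0 => by
    intro n hn
    rw [W, Pi.single_apply, if_neg (by omega)]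
  | (n + 1) => F_one_odd (W_odd n)

theorem W_lead : ∀ n, W (d := d) n (2 * n + 1) = 1 ∧ ∀ m, 2 * n + 1 < m → W (d := d) n m = 0
  | 0 => by
    refine ⟨by simp [W], ?_⟩
    intro m hm
    rw [W, Pi.single_apply, if_neg (by omega)]
  | (n + 1) => by
    obtain ⟨h1, h2⟩ := W_lead n
    constructor
    · change F 1 0 (W n) ((2 * n + 1) + 2) = 1
      rw [F_add_two, h2 _ (by omega), if_pos (by omega), h1, zero_add]
    · intro m hm
      obtain ⟨r, rfl⟩ : ∃ r, m = r + 2 := ⟨m - 2, by omega⟩
      change F 1 0 (W n) (r + 2) = 0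
      rw [F_add_two, h2 _ (by omega), h2 r (by omega)]
      simp

/-- `E₀^n e₀` -/
def V : ℕ → Word d
  | 0 => Pi.single 0 1
  | (n + 1) => F 0 0 (V n)

theorem V_lead : ∀ n, V (d := d) n (2 * n) = 1 ∧ ∀ m, 2 * n < m → V (d := d) n m = 0
  | 0 => by
    refine ⟨by simp [V], ?_⟩
    intro m hm
    rw [V, Pi.single_apply, if_neg (by omega)]
  | (n + 1) => by
    obtain ⟨h1, h2⟩ := V_lead n
    constructor
    · change F 0 0 (V n) ((2 * n) + 2) = 1
      rw [F_add_two, h2 _ (by omega), if_pos (by omega), h1, zero_add]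
    · intro m hm
      obtain ⟨r, rfl⟩ : ∃ r, m = r + 2 := ⟨m - 2, by omega⟩
      change F 0 0 (V n) (r + 2) = 0
      rw [F_add_two, h2 _ (by omega), h2 r (by omega)]
      simp

theorem E0_pow_apply (n : ℕ) : ((F (d := d) 0 0) ^ n) (Pi.single 0 1) = V n := by
  induction n with
  | zero => rfl
  | succ n ih => rw [pow_succ', Equiv.Perm.mul_apply, ih]; rfl

theorem E0_pow_ne (hd : 2 ≤ d) (n : ℕ) (hn : 0 < n) : (F (d := d) 0 0) ^ n ≠ 1 := by
  have : Fact (1 < d) := ⟨hd⟩
  intro h
  have h1 := E0_pow_apply (d := d) n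
  rw [h, Equiv.Perm.one_apply] at h1
  have h2 := (V_lead (d := d) n).1
  rw [← h1, Pi.single_apply, if_neg (by omega)] at h2
  exact zero_ne_one h2

theorem E0_mem : F 0 0 ∈ autGroup (F (d := d) 0 0) :=
  Subgroup.subset_closure IsState.self

theorem F0_mem (c : ZMod d) : F 0 c ∈ autGroup (F (d := d) 0 0) := by
  apply Subgroup.subset_closure
  rw [states_eq]
  exact ⟨c, Or.inl rfl⟩

theorem F1_mem (c : ZMod d) : F 1 c ∈ autGroup (F (d := d) 0 0) := by
  apply Subgroup.subset_closure
  rw [states_eq]
  exact ⟨c, Or.inr rfl⟩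

theorem T0_eq : T (W 0) = F (d := d) 1 1 * (F 1 0)⁻¹ := by
  rw [eq_mul_inv_iff_mul_eq]
  ext x n
  rw [Equiv.Perm.mul_apply, T_apply, Pi.add_apply]
  rcases n with _ | _ | n
  · simp [F_zero', W]
  · simp [F_one', W]
  · rw [F_add_two, F_add_two, W, Pi.single_apply, if_neg (show ¬ (n + 1 + 1 = 1) by omega),
      add_zero]

theorem T_succ (w : Word d) : T (F 1 0 w) = F (d := d) 1 0 * T w * (F 1 0)⁻¹ := by
  rw [eq_mul_inv_iff_mul_eq]
  ext x n
  rw [Equiv.Perm.mul_apply, Equiv.Perm.mul_apply, T_apply, T_apply, F_add]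

theorem TW_mem (n : ℕ) : T (W n) ∈ autGroup (F (d := d) 0 0) := by
  induction n with
  | zero =>
    rw [T0_eq]
    exact mul_mem (F1_mem 1) (inv_mem (F1_mem 0))
  | succ n ih =>
    rw [W, T_succ]
    exact mul_mem (mul_mem (F1_mem 0) ih) (inv_mem (F1_mem 0))

theorem T_comm {w : Word d} (hw : OddSupp w) : F 0 0 * T w = T w * F (d := d) 0 0 := by
  ext x n
  rw [Equiv.Perm.mul_apply, Equiv.Perm.mul_apply, T_apply, T_apply, F_add, F_zero_odd hw]

theorem T_add (v w : Word d) : T (v + w) = T v * T w := by
  ext x n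
  rw [Equiv.Perm.mul_apply, T_apply, T_apply, T_apply]
  simp only [Pi.add_apply]
  ring

theorem T_zero : T (0 : Word d) = 1 := by
  ext x n
  rw [T_apply, add_zero, Equiv.Perm.one_apply]

theorem T_neg (w : Word d) : T (-w) = (T w)⁻¹ := by
  rw [eq_inv_iff_mul_eq_one, ← T_add, neg_add_cancel, T_zero]

theorem T_pow (w : Word d) (n : ℕ) : T w ^ n = T (n • w) := by
  induction n with
  | zero => rw [pow_zero, zero_smul, T_zero]
  | succ n ih => rw [pow_succ, ih, succ_nsmul, T_add]

theorem T_pow_d (w : Word d) : T w ^ d = 1 := by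
  rw [T_pow]
  have : d • w = 0 := by
    funext n
    simp
  rw [this, T_zero]

end F

/-! ### Wreath products -/

/-- In the wreath product an element of infinite order does not commute with a nontrivial
element of finite order. -/
theorem wr_key {d k l : ℕ} (hd : 2 ≤ d) (a b : Wr d k l) (ha : ∀ n, 0 < n → a ^ n ≠ 1)
    (hb : b ^ d = 1) (hb1 : b ≠ 1) (hab : a * b = b * a) : False := by
  -- projection of `b` is trivial
  have hbr : b.top = 0 := by
    have h2 : d • b.top = 0 := by
      rw [← pow_top, hb, one_top]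
    funext i
    have h4 := congrFun h2 i
    simp only [Pi.smul_apply, Pi.zero_apply, nsmul_eq_mul, mul_eq_zero, Nat.cast_eq_zero] at h4
    rcases h4 with h4 | h4
    · omega
    · exact h4
  have har : a.top ≠ 0 := by
    intro har
    apply ha d (by omega)
    apply Wr.ext'
    · rw [pow_base a har, one_base]
      apply Finsupp.ext
      intro u
      funext i
      simp
    · rw [pow_top, har, smul_zero, one_top]
  have hbl : b.base ≠ 0 := by
    intro h
    exact hb1 (Wr.ext' h hbr)
  -- the shift fixes `b.base`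
  have h1 := congrArg Wr.base hab
  rw [mul_base, mul_base, hbr, shift_zero, add_comm b.base] at h1
  have h4 : shift a.top b.base = b.base := add_left_cancel h1
  set v : Fin l → ℤ := a.top with hv
  set f : Base d k l := b.base with hf
  have h5 : ∀ u, f (u - v) = f u := by
    intro u
    rw [← shift_apply, h4]
  have hf0 : f ≠ 0 := hbl
  have hv0 : v ≠ 0 := har
  obtain ⟨u, hu⟩ := Finsupp.ne_iff.mp hf0
  have h6 : ∀ n : ℕ, f (u - n • v) = f u := by
    intro n
    induction n with
    | zero => simp
    | succ n ih => rw [succ_nsmul, ← sub_sub, h5, ih]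
  have h7 : Function.Injective (fun n : ℕ => u - n • v) := by
    intro m n hmn
    have h8 : m • v = n • v := by
      have := hmn
      simp only [sub_right_inj] at this
      exact this
    obtain ⟨i, hi⟩ := Function.ne_iff.mp hv0
    have h9 := congrFun h8 i
    simp only [Pi.smul_apply, nsmul_eq_mul] at h9
    have h10 := mul_right_cancel₀ hi h9
    exact_mod_cast h10
  have h8 : (Set.range (fun n : ℕ => u - n • v)) ⊆ (f.support : Set (Fin l → ℤ)) := by
    rintro _ ⟨n, rfl⟩
    simp only [Finset.mem_coe, Finsupp.mem_support_iff]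
    rw [h6]
    exact hu
  exact Set.infinite_range_of_injective h7 ((Finset.finite_toSet _).subset h8)

/-- For every `d ≥ 2` there is a finite-state affine automorphism `g` of the rooted `d`-ary tree
such that `G_g` is infinite and no normal subgroup of finite index of `G_g` is isomorphic to a
restricted wreath product `ℤ_d^k ≀ ℤ^l`. -/
theorem result (d : ℕ) (hd : 2 ≤ d) :
    ∃ g : Equiv.Perm (Word d), IsAffine g ∧ (states g).Finite ∧ Infinite (autGroup g) ∧
      ∀ k l : ℕ, ∀ N : Subgroup (autGroup g), N.Normal → N.FiniteIndex →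
        IsEmpty (N ≃* Wr d k l) := by
  have : NeZero d := ⟨by omega⟩
  have : Fact (1 < d) := ⟨hd⟩
  refine ⟨F 0 0, isAffine, states_finite, ?_, ?_⟩
  · have : Function.Injective (fun n : ℕ => (⟨F 0 0, E0_mem⟩ : autGroup (F (d := d) 0 0)) ^ n) := by
      apply injective_pow_iff_not_isOfFinOrder.mpr
      rw [isOfFinOrder_iff_pow_eq_one]
      rintro ⟨n, hn, h⟩
      apply E0_pow_ne hd n hn
      have := congrArg Subtype.val h
      simpa using this
    exact Infinite.of_injective _ this
  · intro k l N hN hNf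
    refine ⟨fun φ => ?_⟩
    -- a power of `E₀` in `N`
    obtain ⟨n, hn, hnN⟩ : ∃ n, 0 < n ∧
        (⟨F 0 0, E0_mem⟩ : autGroup (F (d := d) 0 0)) ^ n ∈ N := by
      refine ⟨N.index, Nat.pos_of_ne_zero hNf.index_ne_zero, ?_⟩
      exact N.pow_index_mem _
    -- a nontrivial translation in `N`
    obtain ⟨i, j, hij, hijN⟩ : ∃ i j, i < j ∧
        (⟨T (W i), TW_mem i⟩ : autGroup (F (d := d) 0 0))⁻¹ * ⟨T (W j), TW_mem j⟩ ∈ N := by
      have : Finite (autGroup (F (d := d) 0 0) ⧸ N) := Subgroup.finite_quotient_of_finiteIndex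
      obtain ⟨i, j, hij, h⟩ := Finite.exists_ne_map_eq_of_infinite
        (fun i : ℕ => (QuotientGroup.mk (⟨T (W i), TW_mem i⟩ : autGroup (F (d := d) 0 0)) :
          autGroup (F (d := d) 0 0) ⧸ N))
      rcases lt_or_gt_of_ne hij with h1 | h1
      · exact ⟨i, j, h1, QuotientGroup.eq.mp h⟩
      · exact ⟨j, i, h1, QuotientGroup.eq.mp h.symm⟩
    have hw : OddSupp (-(W i) + W (d := d) j) := by
      intro m hm
      simp [W_odd i m hm, W_odd j m hm]
    have hTw : T (-(W i) + W (d := d) j) = (T (W i))⁻¹ * T (W j) := by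
      rw [T_add, T_neg]
    have hTne : T (-(W i) + W (d := d) j) ≠ 1 := by
      intro h
      have h1 : T (-(W i) + W (d := d) j) 0 (2 * j + 1) = 0 := by rw [h]; rfl
      rw [T_apply, zero_add, Pi.add_apply, Pi.neg_apply, (W_lead j).1,
        (W_lead i).2 _ (by omega), neg_zero, zero_add] at h1
      exact one_ne_zero h1
    refine wr_key hd (φ ⟨_, hnN⟩) (φ ⟨_, hijN⟩) ?_ ?_ ?_ ?_
    · intro m hm h
      rw [← map_pow, map_eq_one_iff φ φ.injective] at h
      have h1 := congrArg (fun z : N => ((z : autGroup (F (d := d) 0 0)) : Equiv.Perm (Word d))) h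
      simp only [Subgroup.coe_pow, Subgroup.coe_one] at h1
      rw [← pow_mul] at h1
      exact E0_pow_ne hd (n * m) (Nat.mul_pos hn hm) h1
    · rw [← map_pow, map_eq_one_iff φ φ.injective]
      apply Subtype.ext
      apply Subtype.ext
      simp only [Subgroup.coe_pow, Subgroup.coe_one, Subgroup.coe_mul, Subgroup.coe_inv]
      rw [← hTw, T_pow_d]
    · intro h
      rw [map_eq_one_iff φ φ.injective] at h
      have h1 := congrArg (fun z : N => ((z : autGroup (F (d := d) 0 0)) : Equiv.Perm (Word d))) h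
      simp only [Subgroup.coe_one, Subgroup.coe_mul, Subgroup.coe_inv] at h1
      rw [← hTw] at h1
      exact hTne h1
    · rw [← map_mul, ← map_mul]
      congr 1
      apply Subtype.ext
      apply Subtype.ext
      simp only [Subgroup.coe_pow, Subgroup.coe_mul, Subgroup.coe_inv]
      rw [← hTw]
      have : Commute (F (d := d) 0 0) (T (-(W i) + W j)) := T_comm hw
      exact (this.pow_left n).eq

end Pool.Agent.Results.MP_7b3742_al.Interleaved
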